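import Pool.Agent.R858.BN4
import Pool.Agent.R858.HypGenus

/-!
# MP_eed2ef_ag: Q1 is false, containments of Brill–Noether loci outside the secant range

Let `(d - 1) (d - 2) < 2 g`. A linear series `g^r_d` on a curve of genus `g` is then not birational
onto its image, and projecting from points of the image one gets a `g^{r-i}_{d-2i}` for every `i`.
So `M^r_{g,d} ⊆ M^{r-i}_{g,d-2i}`. For `3 ≤ r`, `2 ≤ s ≤ 1 + ⌊(r-1)/2⌋` and `2 r ≤ d` the
two loci `M^r_{g,d}` and `M^s_{g,d-2r+2s}` are nonempty, have negative Brill–Noether number, and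
`e = d - 2 r + 2 s` satisfies the inequality of Q1. The smallest case is `M^3_{g,6} ⊆ M^2_{g,4}`, the
hyperelliptic locus; but `M^r_{g,rk}` contains the whole locus `M^1_{g,k}` of the curves of gonality
at most `k`, and the containment `M^3_{g,3k} ⊆ M^2_{g,3k-2}` is outside the range of Q1 for every
`k ≥ 2` and `g > (3 k - 1) (3 k - 2) / 2`.

Curves are given by their function fields, see `Pool/Agent/Helper395/CS/Defs.lean`. The genus is
`dim H¹(C, 𝒪_C)`, see `Pool/Agent/Helper395/BC/Defs.lean`, and `H0 L` is the space of sections of the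
line bundle `L`, see `Pool/Agent/Helper395/BC/Base.lean`.
-/

namespace Pool.Agent.Results.MP_eed2ef_ag.ComposedSeries

open Pool.Agent.Helper395.CS hiding genus map_mul map_inv
open Pool.Agent.Helper395.BC
open Pool.Agent.R858.BN

/-- The curve with function field `K` has a `g^r_d`: a line bundle `L` of degree `d` with
`h⁰(L) ≥ r + 1`. -/
def HasSeries (K : Type) [Field K] [Algebra ℂ K] (r d : ℤ) : Prop :=
  ∃ L : LineBundle K, L.degree = d ∧ r + 1 ≤ (Module.finrank ℂ (H0 L) : ℤ)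

/-- The Brill–Noether number. -/
def rho (g r d : ℤ) : ℤ := g - (r + 1) * (g - d + r)

/-- `M^r_{g,d}` is a Brill–Noether locus in the sense of the problem: `r ≥ 1`, `ρ(g,r,d) < 0`, and
there is a curve of genus `g` with a `g^r_d`. -/
def IsBNLocus (g : ℕ) (r d : ℤ) : Prop :=
  1 ≤ r ∧ rho g r d < 0 ∧ ∃ (K : Type) (_ : Field K) (_ : Algebra ℂ K),
    IsCurve K ∧ genus K = g ∧ HasSeries K r d

/-- `M^r_{g,d} ⊆ M^s_{g,e}`: every curve of genus `g` with a `g^r_d` has a `g^s_e`. -/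
def LocusSubset (g : ℕ) (r d s e : ℤ) : Prop :=
  ∀ (K : Type) [Field K] [Algebra ℂ K], IsCurve K → genus K = g → HasSeries K r d → HasSeries K s e

/-- The hypotheses of Q1 on `g`, `r`, `s`, `d`, `e`. -/
def Hypotheses (g : ℕ) (r s d e : ℤ) : Prop :=
  d ≤ (g : ℤ) - 1 ∧ e ≤ (g : ℤ) - 1 ∧ s + 1 ≤ r ∧ 3 ≤ s + 1 ∧
    IsBNLocus g r d ∧ IsBNLocus g s e ∧ e < d - 2 * r + 2 + s + (r - 1) / 2

/-- The statement of Q1. -/
def QuestionOne : Prop :=
  ∃ g₀ : ℕ, ∀ g : ℕ, g₀ ≤ g → ∀ r s d e : ℤ, Hypotheses g r s d e → ¬ LocusSubset g r d s e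

/-- adding base points -/
theorem HasSeries.add {K : Type} [Field K] [Algebra ℂ K] (hK : IsCurve K) (hg : genus K ≠ 0)
    {r d e : ℤ} (h : HasSeries K r d) (he : d ≤ e) : HasSeries K r e := by
  obtain ⟨L, hL, hL2⟩ := h
  obtain ⟨P, hP1, hP2⟩ := exists_add hK hg L (e - d).toNat
  exact ⟨P, by rw [hP1, hL]; omega, by omega⟩

theorem subset_composed {g : ℕ} (hg : g ≠ 0) {r s d e : ℤ} (hr : 1 ≤ r) (hsr : s ≤ r)
    (hd : (d - 1) * (d - 2) < 2 * g) (he : d - 2 * r + 2 * s ≤ e) : LocusSubset g r d s e := by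
  intro K _ _ hK hgK h
  have hg' : genus K ≠ 0 := by omega
  obtain ⟨L, hL, hL2⟩ := h
  obtain ⟨M, hM1, hM2⟩ := composed hK hg' (L := L) (r := r.toNat) (by omega) (by omega)
    (by rw [hL, hgK]; exact hd) (r - s).toNat
  have h1 : HasSeries K s (d - 2 * r + 2 * s) := ⟨M, by rw [hM1, hL]; omega, by omega⟩
  exact h1.add hK hg' he

/-- the powers of a pencil -/
theorem powers {K : Type} [Field K] [Algebra ℂ K] (hK : IsCurve K) (hg : genus K ≠ 0)
    {L : LineBundle K} {a b : K} (ha : a ∈ H0 L) (hb : b ∈ H0 L) (ha0 : a ≠ 0)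
    (hx : Transcendental ℂ (b / a)) {r : ℤ} (hr : 0 ≤ r) : HasSeries K r (r * L.degree) := by
  obtain ⟨n, rfl⟩ := Int.eq_ofNat_of_zero_le hr
  set M := Pool.Agent.W518.PC.lpow L n with hM
  have hdeg : M.degree = n * L.degree := Pool.Agent.W45.PCG.lpow_degree L n
  have hmem : ∀ p : Polynomial.degreeLT ℂ (n + 1),
      a ^ n * Polynomial.aeval (b / a) (p : Polynomial ℂ) ∈ H0 M := by
    intro p v
    change v.val _ ≤ v.val (M.frame v : K)
    rw [hM, lpow_val, map_mul, map_pow]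
    have h1 : v.val a ^ n * v.val (Polynomial.aeval (b / a) (p : Polynomial ℂ)) ≤
        v.val a ^ n * (max 1 (v.val (b / a))) ^ n :=
      mul_le_mul' le_rfl (aeval_val_le v p.2)
    refine h1.trans ?_
    rw [← mul_pow]
    refine pow_le_pow_left₀ zero_le ?_ _
    rcases le_total 1 (v.val (b / a)) with h | h
    · rw [max_eq_right h, ← map_mul, mul_div_cancel₀ _ ha0]
      exact hb v
    · rw [max_eq_left h, mul_one]
      exact ha v
  let φ : Polynomial.degreeLT ℂ (n + 1) →ₗ[ℂ] H0 M :=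
    LinearMap.codRestrict _ ((LinearMap.mulLeft ℂ (a ^ n)).comp
      ((Polynomial.aeval (b / a)).toLinearMap.comp
        (Submodule.subtype (Polynomial.degreeLT ℂ (n + 1))))) hmem
  have hφ : Function.Injective φ := by
    rw [injective_iff_map_eq_zero]
    intro p hp
    have h1 : a ^ n * Polynomial.aeval (b / a) (p : Polynomial ℂ) = 0 := congrArg Subtype.val hp
    by_contra h2
    rcases mul_eq_zero.1 h1 with h3 | h3
    · exact pow_ne_zero _ ha0 h3
    · exact aeval_ne_zero hx (fun h3 => h2 (Subtype.ext h3)) h3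
  have hfin : FiniteDimensional ℂ (H0 M) := H0_finite hK hg M
  have h1 := LinearMap.finrank_le_finrank_of_injective hφ
  have h2 : Module.finrank ℂ (Polynomial.degreeLT ℂ (n + 1)) = n + 1 := by
    rw [(Polynomial.degreeLTEquiv ℂ (n + 1)).finrank_eq]
    simp
  exact ⟨M, hdeg, by omega⟩

/-- a curve with a `g^1_k` has a `g^r_{r k}` -/
theorem pencil_subset {g : ℕ} (hg : g ≠ 0) {r k : ℤ} (hr : 0 ≤ r) :
    LocusSubset g 1 k r (r * k) := by
  intro K _ _ hK hgK h
  have hg' : genus K ≠ 0 := by omega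
  obtain ⟨L, rfl, hL2⟩ := h
  have hfin : FiniteDimensional ℂ (H0 L) := H0_finite hK hg' L
  have hnt : Nontrivial (H0 L) := Module.nontrivial_of_finrank_pos (R := ℂ) (by omega)
  obtain ⟨a, ha⟩ := exists_ne (0 : H0 L)
  obtain ⟨b, hb⟩ := exists_linearIndependent_pair_of_one_lt_finrank
    (R := ℂ) (M := H0 L) (by omega) ha
  have ha0 : (a : K) ≠ 0 := fun h => ha (Subtype.ext h)
  refine powers hK hg' a.2 b.2 ha0 ?_ hr
  by_contra hcon
  obtain ⟨c, hc⟩ := exists_const hcon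
  rw [LinearIndependent.pair_iff] at hb
  have h1 := hb (-c) 1 (Subtype.ext (by
    change -c • (a : K) + (1 : ℂ) • (b : K) = 0
    rw [one_smul, neg_smul, Algebra.smul_def, ← hc, div_mul_cancel₀ _ ha0]
    ring))
  exact one_ne_zero h1.2

theorem isBNLocus {g : ℕ} (hg : 1 ≤ g) {r d : ℤ} (hr : 1 ≤ r) (hd : 2 * r ≤ d)
    (hρ : rho g r d < 0) : IsBNLocus g r d := by
  refine ⟨hr, hρ, ?_⟩
  obtain ⟨K, i1, i2, hK, hgK, x, hx, hx2⟩ := exists_hyperelliptic g hg
  have hg' : genus K ≠ 0 := by omega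
  have hx0 : x ≠ 0 := by
    rintro rfl
    exact hx isAlgebraic_zero
  have h1 : HasSeries K r (r * (Pool.Agent.W518.SMR.lpole hK (Units.mk0 x hx0)).degree) := by
    refine powers hK hg' (a := 1) (b := x) ?_ ?_ one_ne_zero (by rwa [div_one]) (by omega)
    · intro v
      change v.val 1 ≤ v.val ((Pool.Agent.W518.SMR.lpole hK (Units.mk0 x hx0)).frame v : K)
      rw [Pool.Agent.W518.SMR.lpole_val, map_one]
      exact le_max_left _ _
    · intro v
      change v.val x ≤ v.val ((Pool.Agent.W518.SMR.lpole hK (Units.mk0 x hx0)).frame v : K)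
      rw [Pool.Agent.W518.SMR.lpole_val]
      exact le_max_right _ _
  rw [Pool.Agent.W518.EG.lpole_degree, show degP ((Units.mk0 x hx0 : Kˣ) : K) = 2 from hx2] at h1
  exact ⟨K, i1, i2, hK, hgK, h1.add hK hg' (by omega)⟩

theorem rho_neg {g r d e : ℤ} (hr : 1 ≤ r) (hrd : 2 * r ≤ e) (he : e ≤ d) (hd6 : 6 ≤ d)
    (hd : (d - 1) * (d - 2) < 2 * g) : rho g r e < 0 := by
  unfold rho
  have h1 : 5 * (d - 2) ≤ (d - 1) * (d - 2) := by nlinarith
  have h2 : 5 * (e - 2) < 2 * g := by linarith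
  nlinarith

theorem main (g : ℕ) (r s d e : ℤ) (hr : 3 ≤ r) (hs : 2 ≤ s)
    (hd : 2 * r ≤ d) (hg : (d - 1) * (d - 2) < 2 * g) (he : d - 2 * r + 2 * s ≤ e)
    (he2 : e < d - 2 * r + 2 + s + (r - 1) / 2) :
    Hypotheses g r s d e ∧ LocusSubset g r d s e := by
  have h5 : 5 * (d - 2) ≤ (d - 1) * (d - 2) := by nlinarith
  have hed : e ≤ d := by omega
  have hg1 : (d : ℤ) ≤ g - 1 := by omega
  refine ⟨⟨hg1, by omega, by omega, by omega, isBNLocus (by omega) (by omega) hd ?_,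
    isBNLocus (by omega) (by omega) (by omega) ?_, he2⟩,
    subset_composed (by omega) (by omega) (by omega) hg he⟩
  · exact rho_neg (by omega) hd le_rfl (by omega) hg
  · exact rho_neg (by omega) (by omega) hed (by omega) hg

/-- (1) Q1 is false.
(2) Let `3 ≤ r`, `2 ≤ s`, `2 r ≤ d` and `(d - 1) (d - 2) < 2 g`. For all `e` with
`d - 2 r + 2 s ≤ e < d - 2 r + 2 + s + ⌊(r - 1) / 2⌋` all hypotheses of Q1 hold and
`M^r_{g,d} ⊆ M^s_{g,e}`.
(3) `M^r_{g,d} ⊆ M^s_{g,e}` if `1 ≤ r`, `s ≤ r`, `d - 2 r + 2 s ≤ e` and `(d - 1) (d - 2) < 2 g`.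
(4) The locus `M^r_{g,rk}` contains `M^1_{g,k}`, for `g ≥ 1`. -/
theorem result :
    ¬ QuestionOne ∧
    (∀ (g : ℕ) (r s d e : ℤ), 3 ≤ r → 2 ≤ s → 2 * r ≤ d → (d - 1) * (d - 2) < 2 * g →
      d - 2 * r + 2 * s ≤ e → e < d - 2 * r + 2 + s + (r - 1) / 2 →
      Hypotheses g r s d e ∧ LocusSubset g r d s e) ∧
    (∀ (g : ℕ) (r s d e : ℤ), 1 ≤ r → s ≤ r → (d - 1) * (d - 2) < 2 * g →
      d - 2 * r + 2 * s ≤ e → LocusSubset g r d s e) ∧
    (∀ (g : ℕ) (r k : ℤ), 1 ≤ g → 1 ≤ r → LocusSubset g 1 k r (r * k)) := by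
  refine ⟨?_, main, ?_, fun g r k hg hr => pencil_subset (by omega) (by omega)⟩
  · rintro ⟨g₀, h⟩
    obtain ⟨h1, h2⟩ := main (g₀ + 11) 3 2 6 4 (by norm_num) (by norm_num) (by norm_num)
      (by push_cast; omega) (by norm_num) (by norm_num)
    exact h (g₀ + 11) (by omega) 3 2 6 4 h1 h2
  · intro g r s d e hr hsr hd he
    refine subset_composed ?_ hr hsr hd he
    rintro rfl
    push_cast at hd
    nlinarith [mul_self_nonneg (2 * d - 3)]

end Pool.Agent.Results.MP_eed2ef_ag.ComposedSeries
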